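import Mathlib

/-!
# TQ4: the abstract linearization of a quadratic action (MP_51eb24_ag)
-/

set_option autoImplicit false

namespace Pool.Agent.L5helper37.TQ

theorem abstract_main (k : Type) [Field k] [CharZero k] (V : Type) [AddCommGroup V] [Module k V]
    (T : Type) [CommGroup T] (l : T → V →ₗ[k] V) (B : T → V →ₗ[k] V →ₗ[k] V)
    (hsym : ∀ t x y, B t x y = B t y x) (h1 : ∀ x, l 1 x = x)
    (hl : ∀ s t x, l (s * t) x = l s (l t x))
    (h2 : ∀ s t x, B (s * t) x x = l s (B t x x) + B s (l t x) (l t x))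
    (h3 : ∀ s t x, B s (l t x) (B t x x) = 0)
    (h4 : ∀ s t x, B s (B t x x) (B t x x) = 0)
    (E : (T → V) →ₗ[k] V) (E1 : ∀ (A : V →ₗ[k] V) (f : T → V), E (fun t => A (f t)) = A (E f))
    (E2 : ∀ v, E (fun _ => v) = v)
    (E3 : ∀ x y s, E (fun t => l (t * s)⁻¹ (B (t * s) x y)) = E (fun t => l t⁻¹ (B t x y)))
    (E4 : ∀ x y, E (fun t => l t (B t⁻¹ x y)) = E (fun t => l t⁻¹ (B t x y))) :
    ∃ M : V →ₗ[k] V →ₗ[k] V, (∀ x y, M x y = M y x) ∧ (∀ x, M x (M x x) = 0) ∧
      (∀ x, M (M x x) (M x x) = 0) ∧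
      ∀ s x, (l s x + B s x x) + M (l s x + B s x x) (l s x + B s x x) = l s (x + M x x) := by
  have hE0 : E (fun _ => (0 : V)) = 0 := E2 0
  -- the maps `l` are invertible
  have hinv : ∀ s x, l s⁻¹ (l s x) = x := fun s x => by rw [← hl, inv_mul_cancel, h1]
  have hinv' : ∀ s x, l s (l s⁻¹ x) = x := fun s x => by rw [← hl, mul_inv_cancel, h1]
  -- `B 1 = 0` on the diagonal
  have hB1 : ∀ x, B 1 x x = 0 := fun x => by
    have := h2 1 1 x
    rw [mul_one, h1, h1] at this
    have h := this.symm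
    rwa [add_eq_left] at h
  -- the vectors `w s x = l s⁻¹ (B s x x)`
  have hw : ∀ s x, l s⁻¹ (B s x x) = - B s⁻¹ (l s x) (l s x) := fun s x => by
    have := h2 s⁻¹ s x
    rw [inv_mul_cancel, hB1] at this
    exact eq_neg_of_add_eq_zero_left this.symm
  have hK : ∀ t s x, B t x (l s⁻¹ (B s x x)) = 0 := fun t s x => by
    rw [hw, map_neg]
    have := h3 t s⁻¹ (l s x)
    rw [hinv] at this
    rw [this, neg_zero]
  have hpol : ∀ t s x y, B t y (l s⁻¹ (B s x x)) + (2 : k) • B t x (l s⁻¹ (B s x y)) = 0 := by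
    intro t s x y
    have ha := hK t s (x + y)
    have hb := hK t s (x - y)
    have hx := hK t s x
    have hy := hK t s y
    have hc : (2 : k) • (B t y (l s⁻¹ (B s x x)) + (2 : k) • B t x (l s⁻¹ (B s x y))) = 0 := by
      have hyx : B s y x = B s x y := hsym s y x
      simp only [map_add, map_sub, LinearMap.add_apply, LinearMap.sub_apply, hyx, hx, hy] at ha hb
      have e : (2 : k) • (B t y (l s⁻¹ (B s x x)) + (2 : k) • B t x (l s⁻¹ (B s x y))) =
          (B t y (l s⁻¹ (B s x x)) + B t x (l s⁻¹ (B s x y)) + B t x (l s⁻¹ (B s x y)) +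
            (B t x (l s⁻¹ (B s y y)) + B t y (l s⁻¹ (B s x y)) + B t y (l s⁻¹ (B s x y)))) -
          (-(B t y (l s⁻¹ (B s x x)) + B t x (l s⁻¹ (B s x y)) + B t x (l s⁻¹ (B s x y))) +
            (B t x (l s⁻¹ (B s y y)) + B t y (l s⁻¹ (B s x y)) + B t y (l s⁻¹ (B s x y)))) := by
        simp only [two_smul]
        abel
      rw [e]
      have e1 : B t y (l s⁻¹ (B s x x)) + B t x (l s⁻¹ (B s x y)) + B t x (l s⁻¹ (B s x y)) +
            (B t x (l s⁻¹ (B s y y)) + B t y (l s⁻¹ (B s x y)) + B t y (l s⁻¹ (B s x y))) = 0 := by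
        rw [← ha]; abel
      have e2 : -(B t y (l s⁻¹ (B s x x)) + B t x (l s⁻¹ (B s x y)) + B t x (l s⁻¹ (B s x y))) +
            (B t x (l s⁻¹ (B s y y)) + B t y (l s⁻¹ (B s x y)) + B t y (l s⁻¹ (B s x y))) = 0 := by
        rw [← hb]; abel
      rw [e1, e2, sub_zero]
    exact (smul_eq_zero.1 hc).resolve_left two_ne_zero
  have hww : ∀ t r s x, B t (l r⁻¹ (B r x x)) (l s⁻¹ (B s x x)) = 0 := by
    intro t r s x
    have := hpol t s x (l r⁻¹ (B r x x))
    rw [hK s r x, map_zero, map_zero, smul_zero, add_zero] at this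
    exact this
  -- the bilinear map
  let M : V →ₗ[k] V →ₗ[k] V := LinearMap.mk₂ k (fun x y => E (fun t => l t⁻¹ (B t x y)))
    (fun x x' y => by
      rw [← map_add]; congr 1; funext t; simp)
    (fun c x y => by
      rw [← map_smul]; congr 1; funext t; simp)
    (fun x y y' => by
      rw [← map_add]; congr 1; funext t; simp)
    (fun c x y => by
      rw [← map_smul]; congr 1; funext t; simp)
  have hM : ∀ x y, M x y = E (fun t => l t⁻¹ (B t x y)) := fun x y => rfl
  have hBM : ∀ t x y, B t y (M x x) = E (fun s => B t y (l s⁻¹ (B s x x))) := fun t x y => by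
    rw [hM, ← E1]
  refine ⟨M, fun x y => ?_, fun x => ?_, fun x => ?_, fun s x => ?_⟩
  · rw [hM, hM]
    congr 1
    funext t
    rw [hsym]
  · rw [hM x (M x x)]
    have : ∀ t, l t⁻¹ (B t x (M x x)) = 0 := fun t => by
      rw [hBM]
      simp only [hK]
      rw [hE0, map_zero]
    simp only [this]
    exact hE0
  · rw [hM (M x x) (M x x)]
    have : ∀ t, l t⁻¹ (B t (M x x) (M x x)) = 0 := fun t => by
      rw [hBM]
      have h5 : ∀ s, B t (M x x) (l s⁻¹ (B s x x)) = 0 := fun s => by
        rw [hsym, hBM]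
        simp only [hww]
        exact hE0
      simp only [h5]
      rw [hE0, map_zero]
    simp only [this]
    exact hE0
  · have hA : M (l s x) (B s x x) = 0 := by
      rw [hM]
      simp only [h3, map_zero]
      exact hE0
    have hA' : M (B s x x) (l s x) = 0 := by
      rw [hM]
      have : ∀ t, B t (B s x x) (l s x) = 0 := fun t => by rw [hsym, h3]
      simp only [this, map_zero]
      exact hE0
    have hC : M (B s x x) (B s x x) = 0 := by
      rw [hM]
      simp only [h4, map_zero]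
      exact hE0
    have hD : M (l s x) (l s x) = l s (M x x) - B s x x := by
      rw [hM, hM]
      have e : ∀ t, l t⁻¹ (B t (l s x) (l s x)) =
          l s (l (t * s)⁻¹ (B (t * s) x x)) - B s x x := fun t => by
        rw [h2 t s x, map_add, map_add, ← hl, ← hl s]
        have e1 : s * (t * s)⁻¹ = t⁻¹ := by
          rw [mul_inv_rev, ← mul_assoc, mul_inv_cancel, one_mul]
        rw [e1, ← hl, inv_mul_cancel, h1]
        abel
      simp only [e]
      have e3 := E3 x x s
      have e4 : E (fun t => l s (l (t * s)⁻¹ (B (t * s) x x)) - B s x x) =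
          E (fun t => l s (l (t * s)⁻¹ (B (t * s) x x))) - E (fun _ => B s x x) := by
        rw [← map_sub]; rfl
      rw [e4, E2, E1, e3]
    simp only [map_add, LinearMap.add_apply, hA, hA', hC, hD]
    abel

end Pool.Agent.L5helper37.TQ
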